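import Pool.Agent.H.MP_28bd58_gt.Main

namespace Pool.Agent.Results.MP_28bd58_gt.Yes

open Pool.Agent.H.MP_28bd58_gt

theorem result (M : Set (Fin 2 → ℝ)) (d : (Fin 2 → ℝ) → (Fin 2 → ℝ) → ℝ) (ho : IsOpen M)
    (hc : Convex ℝ M) (hl : ∀ x v : Fin 2 → ℝ, v ≠ 0 → ∃ t : ℝ, x + t • v ∉ M)
    (hd : IsHilbert M d) (O : Fin 2 → ℝ) (hO : O ∈ M) (ε : ℝ) (hε : 0 < ε) :
    ∃ A ∈ M, ∃ B ∈ M, ∃ C ∈ M, ∃ P Q R : Fin 2 → ℝ,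
      O ∈ interior (convexHull ℝ ({A, B, C} : Set (Fin 2 → ℝ))) ∧
      IsFoot M d O B C P ∧ IsFoot M d O C A Q ∧ IsFoot M d O A B R ∧
      (Real.tanh (d O A) + Real.tanh (d O B) + Real.tanh (d O C)) /
        (Real.tanh (d O P) + Real.tanh (d O Q) + Real.tanh (d O R)) ≤ 2 + ε :=
  main ho hc hO hl hd hε

end Pool.Agent.Results.MP_28bd58_gt.Yes
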